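import Mathlib
import Pool.Agent.Lib.MP_9dc2ba_co.Defs
import Pool.Agent.Lib.MP_9dc2ba_co.Affine

/-!
Every extremal unordered triple array with `q + 1` rows and `q ^ 2` columns, or with `q ^ 2` rows
and `q + 1` columns, `q ≥ 7` (that is, the one of an arbitrary affine plane of order `q`), is the
underlying unordered triple array of a triple array.
-/

open Set Pool.Agent.Lib.MP_9dc2ba_co

theorem Pool.Agent.Results.MP_9dc2ba_co.AffinePlanes.result
    {I J S : Type*} (R : I → Set S) (C : J → Set S) (e q : ℕ) (hq : 7 ≤ q)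
    (hU : IsUnorderedTripleArray R C e)
    (hrc : (Nat.card I = q + 1 ∧ Nat.card J = q ^ 2) ∨ (Nat.card I = q ^ 2 ∧ Nat.card J = q + 1))
    (hv : Nat.card S + 1 = Nat.card I + Nat.card J) :
    ∃ T : I → J → S, IsTripleArray T ∧ (∀ i, range (fun j => T i j) = R i) ∧
      (∀ j, range (fun i => T i j) = C j) := by
  rcases hrc with ⟨hI, hJ⟩ | ⟨hI, hJ⟩
  · obtain ⟨T, h1, h2, h3, h4⟩ := order_plane hU hq hI hJ (by omega)
    exact ⟨T, triple_of_uta hU T h1 h2 h3 h4, h3, h4⟩
  · obtain ⟨T, h1, h2, h3, h4⟩ := order_plane hU.symm hq hJ hI (by omega)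
    exact ⟨fun i j => T j i, triple_of_uta hU _ h2 h1 h4 h3, h4, h3⟩
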