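import Mathlib
import Pool.Agent.Lib.MP_9dc2ba_co.Defs
import Pool.Agent.Lib.MP_9dc2ba_co.Affine
import Pool.Agent.Lib.MP_9dc2ba_co.Large.Top

/-!
There is `e₀` such that every extremal unordered triple array with replication number `e ≥ e₀` is
the underlying unordered triple array of a triple array.
-/

open Set Pool.Agent.Lib.MP_9dc2ba_co

universe u v w

theorem Pool.Agent.Results.MP_9dc2ba_co.LargeReplication.result :
    ∃ e₀ : ℕ, ∀ (I : Type u) (J : Type v) (S : Type w) (R : I → Set S) (C : J → Set S) (e : ℕ),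
      e₀ ≤ e → IsUnorderedTripleArray R C e → Nat.card S + 1 = Nat.card I + Nat.card J →
      ∃ T : I → J → S, IsTripleArray T ∧ (∀ i, range (fun j => T i j) = R i) ∧
        (∀ j, range (fun i => T i j) = C j) := by
  refine ⟨(10 ^ 30) ^ 520, fun I J S R C e he hU hv => ?_⟩
  rcases isEmpty_or_nonempty S with hS | hS
  · have hIJ : IsEmpty (I × J) := by
      have := hU.finite_rows
      have := hU.finite_cols
      by_contra h
      obtain ⟨i, j⟩ := not_isEmpty_iff.1 h
      have h1 : 0 < Nat.card I := @Nat.card_pos _ ⟨i⟩ _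
      have h2 : 0 < Nat.card J := @Nat.card_pos _ ⟨j⟩ _
      rw [Nat.card_of_isEmpty] at hv
      omega
    have h3 : ∀ i, range (fun j => (hIJ.elim (i, j) : S)) = R i := fun i =>
      Subsingleton.elim _ _
    have h4 : ∀ j, range (fun i => (hIJ.elim (i, j) : S)) = C j := fun j =>
      Subsingleton.elim _ _
    exact ⟨fun i j => hIJ.elim (i, j), triple_of_uta hU _ (fun i j => hIJ.elim (i, j))
      (fun j i => hIJ.elim (i, j)) h3 h4, h3, h4⟩
  · rcases le_total (Nat.card I) (Nat.card J) with hle | hle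
    · obtain ⟨T, h1, h2, h3, h4⟩ := Large.order_large he hU hv hle
      exact ⟨T, triple_of_uta hU T h1 h2 h3 h4, h3, h4⟩
    · obtain ⟨T, h1, h2, h3, h4⟩ := Large.order_large he hU.symm (by omega) hle
      exact ⟨fun i j => T j i, triple_of_uta hU _ h2 h1 h4 h3, h4, h3⟩
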