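import Mathlib
import Pool.Agent.Lib.MP_9dc2ba_co.Defs
import Pool.Agent.Lib.MP_9dc2ba_co.Geometry

/-!
Every extremal unordered triple array obtained by Agrawal's construction from the
point-hyperplane design of `PG(n, q)`, `n ≥ 2`, with replication number `q ^ (n - 1) > 2`, is the
underlying unordered triple array of a triple array.
-/

open Set Pool.Agent.Lib.MP_9dc2ba_co

theorem Pool.Agent.Results.MP_9dc2ba_co.ProjectiveSpaces.result
    (F : Type*) [Field F] [Finite F] (n : ℕ) (hn : 2 ≤ n) (he : 2 < Nat.card F ^ (n - 1))
    (p : Projectivization F (Fin (n + 1) → F)) :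
    IsUnorderedTripleArray (pgRow p) (pgCol p) (Nat.card F ^ (n - 1)) ∧
    Nat.card {k : Projectivization F (Fin (n + 1) → F) // ¬ k.orthogonal p} = Nat.card F ^ n ∧
    Nat.card {x : Projectivization F (Fin (n + 1) → F) // x ≠ p} + 1 =
      Nat.card {h : Projectivization F (Fin (n + 1) → F) // h.orthogonal p} +
        Nat.card {k : Projectivization F (Fin (n + 1) → F) // ¬ k.orthogonal p} ∧
    ∃ T : {h : Projectivization F (Fin (n + 1) → F) // h.orthogonal p} →
        {k : Projectivization F (Fin (n + 1) → F) // ¬ k.orthogonal p} →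
        {x : Projectivization F (Fin (n + 1) → F) // x ≠ p},
      IsTripleArray T ∧ (∀ i, range (fun j => T i j) = pgRow p i) ∧
        (∀ j, range (fun i => T i j) = pgCol p j) := by
  refine ⟨pg_uta (by omega) p, card_cols p, ?_, pg_order (by omega) p (ord_all n hn he)⟩
  rw [card_syms, card_cols, card_rows]
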